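import Pool.Agent.H933.LL.Stm3

/-!
# One step of the chain: the resolvent of a perturbation of finite rank (task LL, P_loc2)
-/

set_option autoImplicit false

open Metric
open Pool.Agent.H933.LL

namespace Pool.Agent.H183.LL

section algebra

variable {X : Type} [NormedAddCommGroup X] [NormedSpace ℂ X]

theorem mem_res_of {T W : X →L[ℂ] X} {w : ℂ} (h1 : (algebraMap ℂ (X →L[ℂ] X) w - T) * W = 1)
    (h2 : W * (algebraMap ℂ (X →L[ℂ] X) w - T) = 1) :
    w ∈ resolventSet ℂ T ∧ resolvent T w = W := by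
  refine ⟨⟨⟨_, W, h1, h2⟩, rfl⟩, ?_⟩
  have h3 := Ring.inverse_unit (⟨_, W, h1, h2⟩ : (X →L[ℂ] X)ˣ)
  exact h3

theorem res_mul {T : X →L[ℂ] X} {w : ℂ} (h : w ∈ resolventSet ℂ T) :
    (algebraMap ℂ (X →L[ℂ] X) w - T) * resolvent T w = 1 ∧
      resolvent T w * (algebraMap ℂ (X →L[ℂ] X) w - T) = 1 :=
  ⟨Ring.mul_inverse_cancel _ h, Ring.inverse_mul_cancel _ h⟩

theorem res_right {T : X →L[ℂ] X} {w : ℂ} (h : w ∈ resolventSet ℂ T) (y : X) :
    w • resolvent T w y - T (resolvent T w y) = y := by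
  have h1 := congrArg (fun B : X →L[ℂ] X => B y) (res_mul h).1
  simpa [Algebra.algebraMap_eq_smul_one, sub_mul] using h1

theorem res_left {T : X →L[ℂ] X} {w : ℂ} (h : w ∈ resolventSet ℂ T) (x : X) :
    resolvent T w (w • x - T x) = x := by
  have h1 := congrArg (fun B : X →L[ℂ] X => B x) (res_mul h).2
  simpa [Algebra.algebraMap_eq_smul_one, mul_sub] using h1

theorem mem_res_of' {T W : X →L[ℂ] X} {w : ℂ} (h1 : ∀ y, w • W y - T (W y) = y)
    (h2 : ∀ x, W (w • x - T x) = x) : w ∈ resolventSet ℂ T ∧ resolvent T w = W := by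
  refine mem_res_of ?_ ?_
  · ext y
    have := h1 y
    simpa [Algebra.algebraMap_eq_smul_one, sub_mul] using this
  · ext x
    have := h2 x
    simpa [Algebra.algebraMap_eq_smul_one, mul_sub] using this

variable {n : ℕ}

/-- the matrix of the finite dimensional problem -/
noncomputable def Gm (Q : X →L[ℂ] X) (φ : Fin n → (X →L[ℂ] ℂ)) (f : Fin n → X) :
    Matrix (Fin n) (Fin n) ℂ := Matrix.of fun i j => (if i = j then 1 else 0) - φ i (Q (f j))

theorem F_apply (φ : Fin n → (X →L[ℂ] ℂ)) (f : Fin n → X) (x : X) :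
    (∑ i, (φ i).smulRight (f i)) x = ∑ i, φ i x • f i := by
  simp

theorem det_ne {T T₁ Q : X →L[ℂ] X} {w : ℂ} {φ : Fin n → (X →L[ℂ] ℂ)} {f : Fin n → X}
    (hT : ∀ x, T x = T₁ x + ∑ i, φ i x • f i) (hQ : ∀ y, w • Q y - T₁ (Q y) = y)
    (he : ∀ x : X, T x = w • x → x = 0) : (Gm Q φ f).det ≠ 0 := by
  intro h0
  obtain ⟨c, hc, hGc⟩ := Matrix.exists_mulVec_eq_zero_iff.2 h0
  apply hc
  have h1 : ∀ i, φ i (Q (∑ j, c j • f j)) = c i := by
    intro i
    have h2 := congrFun hGc i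
    have h3 : (Gm Q φ f).mulVec c i = c i - ∑ j, c j * φ i (Q (f j)) := by
      unfold Gm Matrix.mulVec dotProduct
      simp only [Matrix.of_apply, sub_mul, Finset.sum_sub_distrib]
      rw [Finset.sum_eq_single i]
      · rw [if_pos rfl, one_mul]
        congr 1
        exact Finset.sum_congr rfl fun j _ => mul_comm _ _
      · intro j _ hj
        rw [if_neg (Ne.symm hj), zero_mul]
      · intro h
        exact absurd (Finset.mem_univ _) h
    rw [h3, Pi.zero_apply, sub_eq_zero] at h2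
    rw [map_sum, map_sum, h2]
    refine Finset.sum_congr rfl fun j _ => ?_
    rw [map_smul, map_smul, smul_eq_mul]
  have h2 : T (Q (∑ j, c j • f j)) = w • Q (∑ j, c j • f j) := by
    rw [hT]
    simp only [h1]
    have h3 := hQ (∑ j, c j • f j)
    rw [sub_eq_iff_eq_add] at h3
    rw [h3, add_comm]
  have h3 := he _ h2
  funext i
  rw [← h1 i, h3, map_zero, Pi.zero_apply]

theorem exists_inv {T T₁ Q : X →L[ℂ] X} {w : ℂ} {φ : Fin n → (X →L[ℂ] ℂ)} {f : Fin n → X}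
    (hT : ∀ x, T x = T₁ x + ∑ i, φ i x • f i) (hQ : ∀ y, w • Q y - T₁ (Q y) = y)
    (he : ∀ x : X, T x = w • x → x = 0) :
    w ∈ resolventSet ℂ T ∧ resolvent T w = Q + ∑ i, ∑ j,
      ((Gm Q φ f)⁻¹ i j) • ((φ j).comp Q).smulRight (Q (f i)) := by
  have hdet := det_ne hT hQ he
  have hunit : IsUnit (Gm Q φ f).det := isUnit_iff_ne_zero.2 hdet
  have hGG : Gm Q φ f * (Gm Q φ f)⁻¹ = 1 := Matrix.mul_nonsing_inv _ hunit
  have hW : ∀ y, (Q + ∑ i, ∑ j, ((Gm Q φ f)⁻¹ i j) • ((φ j).comp Q).smulRight (Q (f i))) y =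
      Q (y + ∑ i, ((Gm Q φ f)⁻¹.mulVec fun j => φ j (Q y)) i • f i) := by
    intro y
    rw [map_add, map_sum, _root_.add_apply, _root_.sum_apply]
    congr 1
    refine Finset.sum_congr rfl fun i _ => ?_
    rw [_root_.sum_apply, map_smul]
    unfold Matrix.mulVec dotProduct
    rw [Finset.sum_smul]
    refine Finset.sum_congr rfl fun j _ => ?_
    rw [_root_.smul_apply, ContinuousLinearMap.smulRight_apply,
      ContinuousLinearMap.comp_apply, smul_smul]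
  have h1 : ∀ y, w • (Q + ∑ i, ∑ j, ((Gm Q φ f)⁻¹ i j) • ((φ j).comp Q).smulRight (Q (f i))) y -
      T ((Q + ∑ i, ∑ j, ((Gm Q φ f)⁻¹ i j) • ((φ j).comp Q).smulRight (Q (f i))) y) = y := by
    intro y
    rw [hW, hT]
    obtain ⟨b, hb⟩ : ∃ b : Fin n → ℂ, b = (Gm Q φ f)⁻¹.mulVec fun j => φ j (Q y) := ⟨_, rfl⟩
    rw [← hb]
    have h2 : (Gm Q φ f).mulVec b = fun j => φ j (Q y) := by
      rw [hb, Matrix.mulVec_mulVec, hGG, Matrix.one_mulVec]
    have h3 : ∀ k, φ k (Q (y + ∑ i, b i • f i)) = b k := by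
      intro k
      have h4 := congrFun h2 k
      have h5 : (Gm Q φ f).mulVec b k = b k - ∑ j, b j * φ k (Q (f j)) := by
        unfold Gm Matrix.mulVec dotProduct
        simp only [Matrix.of_apply, sub_mul, Finset.sum_sub_distrib]
        rw [Finset.sum_eq_single k]
        · rw [if_pos rfl, one_mul]
          congr 1
          exact Finset.sum_congr rfl fun j _ => mul_comm _ _
        · intro j _ hj
          rw [if_neg (Ne.symm hj), zero_mul]
        · intro h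
          exact absurd (Finset.mem_univ _) h
      rw [h5] at h4
      rw [map_add, map_add, map_sum, map_sum, ← h4]
      have h6 : ∑ i, φ k (Q (b i • f i)) = ∑ j, b j * φ k (Q (f j)) := by
        refine Finset.sum_congr rfl fun j _ => ?_
        rw [map_smul, map_smul, smul_eq_mul]
      rw [h6, sub_add_cancel]
    simp only [h3]
    have h4 := hQ (y + ∑ i, b i • f i)
    rw [← sub_sub, h4, add_sub_cancel_right]
  refine mem_res_of' h1 fun x => ?_
  have h2 := h1 (w • x - T x)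
  have h3 := he ((Q + ∑ i, ∑ j, ((Gm Q φ f)⁻¹ i j) • ((φ j).comp Q).smulRight (Q (f i)))
    (w • x - T x) - x) (by
      rw [map_sub, smul_sub]
      rw [sub_eq_iff_eq_add] at h2
      rw [h2]
      abel)
  exact sub_eq_zero.1 h3

theorem Gm_mul {Q W : X →L[ℂ] X} {φ : Fin n → (X →L[ℂ] ℂ)} {f : Fin n → X}
    (h : ∀ y, W y = Q y + Q (∑ k, φ k (W y) • f k)) :
    Gm Q φ f * (Matrix.of fun i j => (if i = j then 1 else 0) + φ i (W (f j))) = 1 := by
  ext i j
  rw [Matrix.mul_apply, Matrix.one_apply]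
  have h1 : ∀ k, Gm Q φ f i k * (Matrix.of fun i j => (if i = j then (1 : ℂ) else 0) +
      φ i (W (f j))) k j = (if i = k then ((if k = j then (1 : ℂ) else 0) + φ k (W (f j))) else 0) -
      φ i (Q (f k)) * (if k = j then 1 else 0) - φ k (W (f j)) * φ i (Q (f k)) := by
    intro k
    unfold Gm
    simp only [Matrix.of_apply]
    by_cases hik : i = k
    · rw [if_pos hik, if_pos hik]
      ring
    · rw [if_neg hik, if_neg hik]
      ring
  rw [Finset.sum_congr rfl fun k _ => h1 k, Finset.sum_sub_distrib, Finset.sum_sub_distrib]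
  have h2 : ∑ k, (if i = k then ((if k = j then (1 : ℂ) else 0) + φ k (W (f j))) else 0) =
      (if i = j then 1 else 0) + φ i (W (f j)) := by
    rw [Finset.sum_eq_single i]
    · rw [if_pos rfl]
    · intro k _ hk
      rw [if_neg (Ne.symm hk)]
    · intro h
      exact absurd (Finset.mem_univ _) h
  have h3 : ∑ k, φ i (Q (f k)) * (if k = j then (1 : ℂ) else 0) = φ i (Q (f j)) := by
    rw [Finset.sum_eq_single j]
    · rw [if_pos rfl, mul_one]
    · intro k _ hk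
      rw [if_neg hk, mul_zero]
    · intro h
      exact absurd (Finset.mem_univ _) h
  have h4 : ∑ k, φ k (W (f j)) * φ i (Q (f k)) = φ i (W (f j)) - φ i (Q (f j)) := by
    have h5 := congrArg (φ i) (h (f j))
    rw [map_add, map_sum, map_sum] at h5
    rw [h5, add_sub_cancel_left]
    refine Finset.sum_congr rfl fun k _ => ?_
    rw [map_smul, map_smul, smul_eq_mul]
  rw [h2, h3, h4]
  ring

end algebra

/-! ### the numerical part -/

theorem num (n : ℕ) {ρ r₀ x : ℝ} (hρ : 1 ≤ ρ) (_hr : 0 ≤ r₀) (hx : 0 ≤ x)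
    (h : x ≤ 2 * ρ + n ^ 2 * (4 * ρ ^ 4) *
      ((n * (3 * ρ ^ 3)) ^ (3 * n) * (n * (1 + ρ ^ 2 * r₀)) ^ (3 * n))) :
    1 + Real.posLog x ≤ 100 * (n + 1) ^ 2 * (1 + Real.log ρ) * (1 + Real.posLog r₀) := by
  have hlρ : Real.posLog ρ = Real.log ρ := Real.posLog_eq_log (hρ.trans (le_abs_self ρ))
  have hla : 0 ≤ Real.log ρ := Real.log_nonneg hρ
  have hℓ : 0 ≤ Real.posLog r₀ := Real.posLog_nonneg
  have hn0 : (0 : ℝ) ≤ n := Nat.cast_nonneg n
  have hln : Real.posLog (n : ℝ) ≤ n := by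
    rw [Real.log_of_nat_eq_posLog]
    rcases Nat.eq_zero_or_pos n with h0 | h0
    · rw [h0]
      simp
    · have : (0 : ℝ) < n := by exact_mod_cast h0
      have := Real.log_le_sub_one_of_pos this
      linarith
  have hl2 : Real.posLog 2 ≤ 1 := by
    have := Real.log_two_lt_d9
    rw [Real.posLog_eq_log (by norm_num)]
    linarith
  have hl2' : Real.log 2 ≤ 1 := by
    have := Real.log_two_lt_d9
    linarith
  have hl4 : Real.posLog 4 ≤ 2 := by
    have h4 : (4 : ℝ) = 2 ^ 2 := by norm_num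
    rw [h4, Real.posLog_pow]
    push_cast
    linarith
  have hl3 : Real.posLog 3 ≤ 2 :=
    (Real.posLog_le_posLog (by norm_num) (by norm_num : (3 : ℝ) ≤ 4)).trans hl4
  have e1 : Real.posLog (3 * ρ ^ 3) ≤ 2 + 3 * Real.log ρ := by
    refine Real.posLog_mul.trans ?_
    rw [Real.posLog_pow, hlρ]
    push_cast
    linarith
  have e2 : Real.posLog (1 + ρ ^ 2 * r₀) ≤ 1 + 2 * Real.log ρ + Real.posLog r₀ := by
    refine Real.posLog_add.trans ?_
    have h1 : Real.posLog (ρ ^ 2 * r₀) ≤ Real.posLog (ρ ^ 2) + Real.posLog r₀ := Real.posLog_mul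
    rw [Real.posLog_pow, hlρ] at h1
    push_cast at h1
    rw [Real.posLog_one]
    linarith
  have e3 : Real.posLog ((n * (3 * ρ ^ 3)) ^ (3 * n)) ≤ 3 * n * (n + (2 + 3 * Real.log ρ)) := by
    rw [Real.posLog_pow]
    push_cast
    refine mul_le_mul_of_nonneg_left ?_ (by positivity)
    exact Real.posLog_mul.trans (add_le_add hln e1)
  have e4 : Real.posLog ((n * (1 + ρ ^ 2 * r₀)) ^ (3 * n)) ≤
      3 * n * (n + (1 + 2 * Real.log ρ + Real.posLog r₀)) := by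
    rw [Real.posLog_pow]
    push_cast
    refine mul_le_mul_of_nonneg_left ?_ (by positivity)
    exact Real.posLog_mul.trans (add_le_add hln e2)
  have e5 : Real.posLog (n ^ 2 * (4 * ρ ^ 4)) ≤ 2 * n + (2 + 4 * Real.log ρ) := by
    refine Real.posLog_mul.trans (add_le_add ?_ (Real.posLog_mul.trans (add_le_add hl4 ?_)))
    · rw [Real.posLog_pow]
      push_cast
      linarith
    · rw [Real.posLog_pow, hlρ]
      push_cast
      linarith
  have e6 : Real.posLog (2 * ρ) ≤ 1 + Real.log ρ := by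
    refine Real.posLog_mul.trans ?_
    rw [hlρ]
    linarith
  have e7 : Real.posLog x ≤ 1 + (1 + Real.log ρ) + (2 * n + (2 + 4 * Real.log ρ) +
      (3 * n * (n + (2 + 3 * Real.log ρ)) +
        3 * n * (n + (1 + 2 * Real.log ρ + Real.posLog r₀)))) := by
    refine (Real.posLog_le_posLog hx h).trans (Real.posLog_add.trans ?_)
    refine add_le_add (add_le_add hl2' e6) ?_
    exact Real.posLog_mul.trans (add_le_add e5 (Real.posLog_mul.trans (add_le_add e3 e4)))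
  generalize Real.posLog x = lx at e7 ⊢
  generalize Real.log ρ = a at hla e7 ⊢
  generalize Real.posLog r₀ = b at hℓ e7 ⊢
  generalize (n : ℝ) = m at hn0 e7 ⊢
  have p1 : 0 ≤ m * a := by positivity
  have p2 : 0 ≤ m * b := by positivity
  have p3 : 0 ≤ m ^ 2 * a := by positivity
  have p4 : 0 ≤ m ^ 2 * b := by positivity
  have p5 : 0 ≤ m ^ 2 := by positivity
  have p6 : 0 ≤ a * b := by positivity
  have p7 : 0 ≤ m * (a * b) := by positivity
  have p8 : 0 ≤ m ^ 2 * (a * b) := by positivity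
  have e8 : 100 * (m + 1) ^ 2 * (1 + a) * (1 + b) = 100 * (m ^ 2 + 2 * m + 1 + (m ^ 2 * a) +
      2 * (m * a) + a + (m ^ 2 * b) + 2 * (m * b) + b + (m ^ 2 * (a * b)) + 2 * (m * (a * b)) +
      a * b) := by ring
  rw [e8]
  have e9 : 1 + (1 + a) + (2 * m + (2 + 4 * a) + (3 * m * (m + (2 + 3 * a)) +
      3 * m * (m + (1 + 2 * a + b)))) = 4 + 5 * a + 11 * m + 6 * m ^ 2 + 15 * (m * a) +
      3 * (m * b) := by ring
  rw [e9] at e7
  linarith

theorem inv_norm {X : Type} [NormedAddCommGroup X] [NormedSpace ℂ X] {n : ℕ}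
    {Q : X →L[ℂ] X} {φ : Fin n → (X →L[ℂ] ℂ)} {f : Fin n → X} {ρ m : ℝ} (hρ : 1 ≤ ρ) (hm : 0 ≤ m)
    (hQ : ‖Q‖ ≤ 2 * ρ) (hφ : ∀ i, ‖φ i‖ ≤ ρ ∧ ‖f i‖ ≤ ρ) {A : Matrix (Fin n) (Fin n) ℂ}
    (hA : ∀ i j, ‖A i j‖ ≤ m) :
    ‖Q + ∑ i, ∑ j, (A i j) • ((φ j).comp Q).smulRight (Q (f i))‖ ≤
      2 * ρ + n ^ 2 * (4 * ρ ^ 4) * m := by
  have hρ0 : 0 ≤ ρ := by linarith
  refine (norm_add_le _ _).trans (add_le_add hQ ?_)
  have h1 : ∀ i j, ‖(A i j) • ((φ j).comp Q).smulRight (Q (f i))‖ ≤ 4 * ρ ^ 4 * m := by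
    intro i j
    rw [norm_smul, ContinuousLinearMap.norm_smulRight_apply]
    have h2 : ‖(φ j).comp Q‖ ≤ ρ * (2 * ρ) :=
      (ContinuousLinearMap.opNorm_comp_le _ _).trans
        (mul_le_mul (hφ j).1 hQ (norm_nonneg _) hρ0)
    have h3 : ‖Q (f i)‖ ≤ (2 * ρ) * ρ :=
      (Q.le_opNorm _).trans (mul_le_mul hQ (hφ i).2 (norm_nonneg _) (by positivity))
    calc ‖A i j‖ * (‖(φ j).comp Q‖ * ‖Q (f i)‖) ≤ m * ((ρ * (2 * ρ)) * ((2 * ρ) * ρ)) :=
          mul_le_mul (hA i j) (mul_le_mul h2 h3 (norm_nonneg _) (by positivity))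
            (by positivity) hm
      _ = 4 * ρ ^ 4 * m := by ring
  calc ‖∑ i, ∑ j, (A i j) • ((φ j).comp Q).smulRight (Q (f i))‖
      ≤ ∑ i : Fin n, ∑ j : Fin n, ‖(A i j) • ((φ j).comp Q).smulRight (Q (f i))‖ :=
        (norm_sum_le _ _).trans (Finset.sum_le_sum fun i _ => norm_sum_le _ _)
    _ ≤ ∑ _i : Fin n, ∑ _j : Fin n, 4 * ρ ^ 4 * m :=
        Finset.sum_le_sum fun i _ => Finset.sum_le_sum fun j _ => h1 i j
    _ = n ^ 2 * (4 * ρ ^ 4) * m := by
        rw [Finset.sum_const, Finset.sum_const, Finset.card_univ, Fintype.card_fin, nsmul_eq_mul,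
          nsmul_eq_mul]
        ring

theorem pert {X : Type} [NormedAddCommGroup X] [NormedSpace ℂ X] [CompleteSpace X]
    {S G₀ : X →L[ℂ] X} {w : ℂ} {ρ : ℝ} (hw : w ∈ resolventSet ℂ S)
    (hb : ‖resolvent S w‖ ≤ ρ) (hG : ‖G₀‖ * ρ ≤ 1 / 2) :
    w ∈ resolventSet ℂ (S + G₀) ∧ ‖resolvent (S + G₀) w‖ ≤ 2 * ρ := by
  have h1 : ‖G₀ * resolvent S w‖ ≤ 1 / 2 :=
    (norm_mul_le _ _).trans ((mul_le_mul_of_nonneg_left hb (norm_nonneg _)).trans hG)
  have h2 : IsUnit (1 - G₀ * resolvent S w) :=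
    isUnit_one_sub_of_norm_lt_one (lt_of_le_of_lt h1 (by norm_num))
  have h3 : algebraMap ℂ (X →L[ℂ] X) w - (S + G₀) =
      (1 - G₀ * resolvent S w) * (algebraMap ℂ (X →L[ℂ] X) w - S) := by
    rw [sub_mul, one_mul, mul_assoc, (res_mul hw).2, mul_one, sub_sub]
  have h4 : w ∈ resolventSet ℂ (S + G₀) := by
    have : IsUnit (algebraMap ℂ (X →L[ℂ] X) w - (S + G₀)) := by
      rw [h3]
      exact h2.mul hw
    exact this
  refine ⟨h4, ?_⟩
  have h5 := (res_mul h4).2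
  have h6 : resolvent (S + G₀) w = resolvent S w + resolvent (S + G₀) w * (G₀ * resolvent S w) := by
    have h7 : resolvent (S + G₀) w * (algebraMap ℂ (X →L[ℂ] X) w - S) =
        1 + resolvent (S + G₀) w * G₀ := by
      rw [← sub_sub, mul_sub] at h5
      rw [← h5]
      abel
    have h8 := congrArg (fun B => B * resolvent S w) h7
    simp only [mul_assoc, add_mul, one_mul, (res_mul hw).1, mul_one] at h8
    exact h8
  have h7 : ‖resolvent (S + G₀) w‖ ≤ ρ + ‖resolvent (S + G₀) w‖ * (1 / 2) := by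
    calc ‖resolvent (S + G₀) w‖ = ‖resolvent S w + resolvent (S + G₀) w * (G₀ * resolvent S w)‖ := by
          rw [← h6]
      _ ≤ ‖resolvent S w‖ + ‖resolvent (S + G₀) w * (G₀ * resolvent S w)‖ := norm_add_le _ _
      _ ≤ ρ + ‖resolvent (S + G₀) w‖ * (1 / 2) :=
          add_le_add hb ((norm_mul_le _ _).trans (mul_le_mul_of_nonneg_left h1 (norm_nonneg _)))
  linarith

theorem Gm_diff {X : Type} [NormedAddCommGroup X] [NormedSpace ℂ X] [CompleteSpace X] {n : ℕ}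
    {T₁ : X →L[ℂ] X} {φ : Fin n → (X →L[ℂ] ℂ)} {f : Fin n → X} {U : Set ℂ}
    (hU : ∀ w ∈ U, w ∈ resolventSet ℂ T₁) :
    DifferentiableOn ℂ (fun w => (Gm (resolvent T₁ w) φ f).det) U := by
  have h1 : ∀ i j, DifferentiableOn ℂ (fun w => Gm (resolvent T₁ w) φ f i j) U := by
    intro i j w hw
    have h2 : HasDerivAt (resolvent T₁) (-resolvent T₁ w ^ 2) w :=
      spectrum.hasDerivAt_resolvent_const_left (hU w hw)
    have h3 : DifferentiableAt ℂ (fun w => φ i (resolvent T₁ w (f j))) w :=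
      (((φ i).comp (ContinuousLinearMap.apply ℂ X (f j))).differentiableAt).comp w
        h2.differentiableAt
    unfold Gm
    simp only [Matrix.of_apply]
    exact ((differentiableAt_const _).sub h3).differentiableWithinAt
  simp only [Matrix.det_apply]
  refine DifferentiableOn.fun_sum fun σ _ => ?_
  refine DifferentiableOn.const_smul ?_ _
  exact DifferentiableOn.fun_finsetProd fun i _ => h1 _ _

theorem p_loc2 (h1 : P_det) (h2 : P_harn) : P_loc2 := by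
  intro X _ _ _ S K z₀ R ρ n φ f hR hρ hS hφ hK he
  obtain ⟨G₀, hG₀⟩ : ∃ G₀ : X →L[ℂ] X, G₀ = K - ∑ i, (φ i).smulRight (f i) := ⟨_, rfl⟩
  rw [← hG₀] at hK
  have hT : ∀ x, (S + K) x = (S + G₀) x + ∑ i, φ i x • f i := by
    intro x
    rw [← F_apply, ← _root_.add_apply, hG₀]
    congr 1
    abel
  have hρ0 : 0 ≤ ρ := by linarith
  have hQ : ∀ w ∈ ball z₀ R, w ∈ resolventSet ℂ (S + G₀) ∧ ‖resolvent (S + G₀) w‖ ≤ 2 * ρ :=
    fun w hw => pert (hS w hw).1 (hS w hw).2 hK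
  have hinv : ∀ w ∈ ball z₀ R, _ := fun w hw =>
    exists_inv hT (res_right (hQ w hw).1) (he w hw)
  refine ⟨fun w hw => (hinv w hw).1, fun w hw => ?_⟩
  have hz0 : z₀ ∈ ball z₀ R := mem_ball_self hR
  have hwb : w ∈ ball z₀ R := by
    rw [mem_ball, dist_eq_norm]
    linarith
  have hgg : (1 : ℝ) ≤ 3 * ρ ^ 3 := by
    have : 1 ≤ ρ ^ 3 := one_le_pow₀ hρ
    linarith
  have hent : ∀ v ∈ ball z₀ R, ∀ i j, ‖Gm (resolvent (S + G₀) v) φ f i j‖ ≤ 3 * ρ ^ 3 := by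
    intro v hv i j
    have h3 : ‖φ i (resolvent (S + G₀) v (f j))‖ ≤ ρ * ((2 * ρ) * ρ) :=
      ((φ i).le_opNorm _).trans (mul_le_mul (hφ i).1 (((resolvent (S + G₀) v).le_opNorm _).trans
        (mul_le_mul (hQ v hv).2 (hφ j).2 (norm_nonneg _) (by positivity))) (norm_nonneg _) hρ0)
    have h4 : ‖(if i = j then (1 : ℂ) else 0)‖ ≤ 1 := by
      split_ifs <;> simp
    have h5 : 1 ≤ ρ ^ 3 := one_le_pow₀ hρ
    unfold Gm
    rw [Matrix.of_apply]
    calc _ ≤ ‖(if i = j then (1 : ℂ) else 0)‖ + ‖φ i (resolvent (S + G₀) v (f j))‖ := norm_sub_le _ _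
      _ ≤ 1 + ρ * ((2 * ρ) * ρ) := add_le_add h4 h3
      _ ≤ ρ ^ 3 + 2 * ρ ^ 3 := by
          have : ρ * ((2 * ρ) * ρ) = 2 * ρ ^ 3 := by ring
          linarith
      _ = 3 * ρ ^ 3 := by ring
  have hdet0 : ∀ v ∈ ball z₀ R, (Gm (resolvent (S + G₀) v) φ f).det ≠ 0 := fun v hv =>
    det_ne hT (res_right (hQ v hv).1) (he v hv)
  have hM : ∀ v ∈ ball z₀ R, ‖(Gm (resolvent (S + G₀) v) φ f).det‖ ≤ (n * (3 * ρ ^ 3)) ^ n :=
    fun v hv => (h1 n _ _ hgg (hent v hv)).1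
  have hharn := h2 (fun v => (Gm (resolvent (S + G₀) v) φ f).det) z₀ w R _ hR
    (Gm_diff fun v hv => (hQ v hv).1) hdet0 hM hw
  -- the determinant at the centre
  obtain ⟨W, hW⟩ : ∃ W : X →L[ℂ] X, W = resolvent (S + K) z₀ := ⟨_, rfl⟩
  have hWeq : ∀ y, W y = resolvent (S + G₀) z₀ y +
      resolvent (S + G₀) z₀ (∑ k, φ k (W y) • f k) := by
    intro y
    have h3 := res_right (hinv z₀ hz0).1 y
    rw [← hW, hT] at h3
    have h4 := res_left (hQ z₀ hz0).1 (W y)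
    have h5 : z₀ • W y - (S + G₀) (W y) = y + ∑ k, φ k (W y) • f k := by
      rw [← sub_sub, sub_eq_iff_eq_add] at h3
      exact h3
    rw [h5, map_add] at h4
    exact h4.symm
  have hGH := congrArg Matrix.det (Gm_mul hWeq)
  rw [Matrix.det_mul, Matrix.det_one] at hGH
  have hg' : 1 ≤ 1 + ρ ^ 2 * ‖W‖ := by
    have : 0 ≤ ρ ^ 2 * ‖W‖ := by positivity
    linarith
  have hHent : ∀ i j, ‖(Matrix.of fun i j => (if i = j then (1 : ℂ) else 0) +
      φ i (W (f j)) : Matrix (Fin n) (Fin n) ℂ) i j‖ ≤ 1 + ρ ^ 2 * ‖W‖ := by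
    intro i j
    have h3 : ‖φ i (W (f j))‖ ≤ ρ * (‖W‖ * ρ) :=
      ((φ i).le_opNorm _).trans (mul_le_mul (hφ i).1 ((W.le_opNorm _).trans
        (mul_le_mul_of_nonneg_left (hφ j).2 (norm_nonneg _))) (norm_nonneg _) hρ0)
    have h4 : ‖(if i = j then (1 : ℂ) else 0)‖ ≤ 1 := by
      split_ifs <;> simp
    rw [Matrix.of_apply]
    calc _ ≤ ‖(if i = j then (1 : ℂ) else 0)‖ + ‖φ i (W (f j))‖ := norm_add_le _ _
      _ ≤ 1 + ρ * (‖W‖ * ρ) := add_le_add h4 h3
      _ = 1 + ρ ^ 2 * ‖W‖ := by ring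
  have hdH := (h1 n _ _ hg' hHent).1
  have hnorm := congrArg norm hGH
  rw [norm_mul, norm_one] at hnorm
  have hD0 : 0 < ‖(Gm (resolvent (S + G₀) z₀) φ f).det‖ := norm_pos_iff.2 (hdet0 z₀ hz0)
  have hDw : 0 < ‖(Gm (resolvent (S + G₀) w) φ f).det‖ := norm_pos_iff.2 (hdet0 w hwb)
  have hMpos := hD0.trans_le (hM z₀ hz0)
  have hent2 : ∀ i j, ‖(Gm (resolvent (S + G₀) w) φ f)⁻¹ i j‖ ≤
      (n * (3 * ρ ^ 3)) ^ (3 * n) * (n * (1 + ρ ^ 2 * ‖W‖)) ^ (3 * n) := by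
    intro i j
    refine ((h1 n _ _ hgg (hent w hwb)).2 (hdet0 w hwb) i j).trans ?_
    rw [mul_comm 3 n, pow_mul, pow_mul]
    change ‖(Gm (resolvent (S + G₀) z₀) φ f).det‖ ^ 3 / ((n * (3 * ρ ^ 3)) ^ n) ^ 2 ≤
      ‖(Gm (resolvent (S + G₀) w) φ f).det‖ at hharn
    generalize ((n : ℝ) * (3 * ρ ^ 3)) ^ n = M at hharn hMpos ⊢
    generalize ((n : ℝ) * (1 + ρ ^ 2 * ‖W‖)) ^ n = M' at hdH ⊢
    generalize ‖(Gm (resolvent (S + G₀) z₀) φ f).det‖ = D₀ at hharn hnorm hD0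
    generalize ‖(Gm (resolvent (S + G₀) w) φ f).det‖ = Dw at hharn hDw ⊢
    have h3 : 1 ≤ D₀ * M' := by
      rw [← hnorm]
      exact mul_le_mul_of_nonneg_left hdH hD0.le
    have h4 : 1 ≤ (D₀ * M') ^ 3 := one_le_pow₀ h3
    have h5 : 0 < M' := by
      by_contra hc
      have : D₀ * M' ≤ 0 := mul_nonpos_of_nonneg_of_nonpos hD0.le (not_lt.1 hc)
      linarith
    rw [div_le_iff₀ (by positivity)] at hharn
    rw [div_le_iff₀ hDw]
    calc M = M * 1 := (mul_one M).symm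
      _ ≤ M * (D₀ * M') ^ 3 := mul_le_mul_of_nonneg_left h4 hMpos.le
      _ = M * M' ^ 3 * D₀ ^ 3 := by ring
      _ ≤ M * M' ^ 3 * (Dw * M ^ 2) := mul_le_mul_of_nonneg_left hharn (by positivity)
      _ = M ^ 3 * M' ^ 3 * Dw := by ring
  have hfin : ‖resolvent (S + K) w‖ ≤ 2 * ρ + n ^ 2 * (4 * ρ ^ 4) *
      ((n * (3 * ρ ^ 3)) ^ (3 * n) * (n * (1 + ρ ^ 2 * ‖W‖)) ^ (3 * n)) := by
    rw [(hinv w hwb).2]
    exact inv_norm hρ (by positivity) (hQ w hwb).2 hφ hent2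
  rw [← hW]
  exact num n hρ (norm_nonneg _) (norm_nonneg _) hfin

end Pool.Agent.H183.LL
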